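import Pool.Agent.V11257.Tr13

/-!
# A model of ZF in which ISFBI holds and IDFBI fails

The model is a symmetric extension with a copy `A` of the set of the sequences of natural numbers
and, for every finite sequence `s`, names for the subsets of `A` that are equal, up to finitely
many elements, to the set of the sequences that extend `s`, each with an enumeration of the labels
of the children of `s` that is unique up to finitely many labels. The dyadic systems of subsets of
`A` would have finite supports `E`; by automorphisms that exchange two labels at a node, every value
of such a system contains almost all or almost none of the elements of a node without extensions in
`E`, and there are no infinitely many almost disjoint sets among the finite unions of such nodes or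
among the sets that contain almost all nodes below a node of `E`. An infinite set `x` of the
extension such that every family of finite subsets of `x` that is indexed by the natural numbers or
by `A` has a finite union would be finite. So every infinite set has an infinite subset with a
function with finite fibres onto the set of the natural numbers or onto an infinite subset of `A`,
and such sets have sequences of almost disjoint infinite sets, up to finite sets, since every
infinite subset of `A` contains almost all elements of some node.
-/

namespace Pool.Agent.Results.MP_fb2f7f_lc.StronglyNotDyadically

open FirstOrder FirstOrder.Language
open Pool.Agent.Helper672.Plain (LSet)
open Pool.Agent.H635Amen (ZF)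
open Pool.Agent.H310NAS (WO)
open Pool.Agent.V11257N (IDFBI)
open Pool.Agent.V11257T (ISFBI)

universe u

/-- There is a model of ZF (and for every model of ZF in which every set has a well-order there is
one in the same universe) in which every infinite set is strongly filterbase infinite, but not
every infinite set is dyadically filterbase infinite. -/
theorem result : (∃ (N : Type 1) (_ : LSet.Structure N), ZF N ∧ ISFBI N ∧ ¬ IDFBI N) ∧
    ∀ (M : Type u) [LSet.Structure M], ZF M → WO M → ∃ (N : Type u) (_ : LSet.Structure N),
      ZF N ∧ ISFBI N ∧ ¬ IDFBI N :=
  ⟨Pool.Agent.V11257T.exists_isf_zs, fun M _ h hW => Pool.Agent.V11257T.exists_isf M h hW⟩

end Pool.Agent.Results.MP_fb2f7f_lc.StronglyNotDyadically
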